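import Pool.Agent.Helper185.SilverFinal
import Pool.Agent.Helper292.ForceCH

/-!
Subsets and the Borel omega-cover selection properties: a failure of both from the
continuum hypothesis, together with a forcing notion which forces the continuum hypothesis.
-/

namespace Pool.Agent.Results.MP_c563c8_gt.ConsistentlyNotHereditary

open Pool.Agent.Helper185.Sel

/-- There is a nonempty forcing notion all of whose conditions force that `ω₁` is preserved and
that the continuum hypothesis holds; and the continuum hypothesis gives sets of reals `Y ⊆ X`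
such that `X` satisfies `S₁(B_Ω, B_Ω)` and `S_fin(B_Ω, B_Ω)` and `Y` satisfies neither. -/
theorem result :
    (∃ (P : Type) (_ : Preorder P), Nonempty P ∧ ∀ p : P,
      p ∈ Pool.Agent.Helper292.ForceCH.OmegaOnePreserved P ∧
      p ∈ Pool.Agent.Helper292.ForceCH.CHHolds P) ∧
    (Cardinal.aleph 1 = Cardinal.continuum.{0} →
    ∃ X Y : Set ℝ, Y ⊆ X ∧
      (S1 (OmegaOf (BorelFam X)) (OmegaOf (BorelFam X)) ∧
        Sfin (OmegaOf (BorelFam X)) (OmegaOf (BorelFam X))) ∧
      ¬ S1 (OmegaOf (BorelFam Y)) (OmegaOf (BorelFam Y)) ∧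
      ¬ Sfin (OmegaOf (BorelFam Y)) (OmegaOf (BorelFam Y))) := by
  refine ⟨?_, Pool.Agent.Helper185.Silver.subsets⟩
  obtain ⟨P, i, h1, h2⟩ := Pool.Agent.Helper292.ForceCH.exists_forcing
  exact ⟨P, i, h1, fun p => ⟨(h2 p).1, (h2 p).2.2⟩⟩

end Pool.Agent.Results.MP_c563c8_gt.ConsistentlyNotHereditary
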